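import Pool.Agent.H17.PD.Fin

/-!
# MP_ff26cb_ag: the degree of a parametrization of a smooth hypersurface

Let `X` be a smooth hypersurface of degree `d ≥ 2` in the projective space of dimension `n + 1`, and
let `φ` be a dominant rational map from the projective space of dimension `n` to `X`, given by forms
of degree `m`. Then `d (d - 1) ^ n ≤ (n + 1) (m - 1) ^ n`, and `m ≥ d`.
-/

set_option autoImplicit false

namespace Pool.Agent.Results.MP_ff26cb_ag.ParametrizationDegree

open MvPolynomial

/-- `F` is a form of degree `d` in `n + 2` variables and `F = 0` is a smooth hypersurface: the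
partial derivatives of `F` have no common zero except `0`. -/
def SmoothHyp {k : Type} [Field k] (n d : ℕ) (F : MvPolynomial (Fin (n + 2)) k) : Prop :=
  F.IsHomogeneous d ∧ ∀ x : Fin (n + 2) → k, (∀ i, eval x (pderiv i F) = 0) → x = 0

/-- `φ` is a tuple of forms of degree `m` in `n + 1` variables, and the polynomials which vanish on
its image are exactly the multiples of `F`: the forms define a dominant rational map from the
projective space of dimension `n` to the hypersurface `F = 0`. -/
def Parametrizes {k : Type} [Field k] (n m : ℕ) (F : MvPolynomial (Fin (n + 2)) k)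
    (φ : Fin (n + 2) → MvPolynomial (Fin (n + 1)) k) : Prop :=
  (∀ i, (φ i).IsHomogeneous m) ∧ ∀ Q : MvPolynomial (Fin (n + 2)) k, aeval φ Q = 0 ↔ F ∣ Q

/-- A dominant rational map, given by forms of degree `m`, from the projective space of dimension
`n` to a smooth hypersurface of degree `d` satisfies `d (d - 1) ^ n ≤ (n + 1) (m - 1) ^ n` and
`d ≤ m`. -/
theorem result (k : Type) [Field k] [IsAlgClosed k] [CharZero k] (n d m : ℕ) (hn : 1 ≤ n)
    (hd : 2 ≤ d) (F : MvPolynomial (Fin (n + 2)) k) (hF : SmoothHyp n d F)
    (φ : Fin (n + 2) → MvPolynomial (Fin (n + 1)) k) (hφ : Parametrizes n m F φ) :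
    d * (d - 1) ^ n ≤ (n + 1) * (m - 1) ^ n ∧ d ≤ m :=
  Pool.Agent.H17.PD.main hn hd F hF.1 hF.2 φ hφ.1 hφ.2

end Pool.Agent.Results.MP_ff26cb_ag.ParametrizationDegree
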